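import Pool.Agent.Lib.MP_1a91b9_ntE.R.DensityAll

/-!
# MP_1a91b9_nt (twists over `Q(sqrt -3)`): the squarefree elements
-/

set_option autoImplicit false

namespace Pool.Agent.Lib.MP_1a91b9_ntS.G

open NumberField Finset Pool.Agent.Lib.MP_1a91b9_ntT Pool.Agent.Lib.MP_1a91b9_ntH
  Pool.Agent.Lib.MP_1a91b9_ntH2 Pool.Agent.Lib.MP_1a91b9_ntE

noncomputable section

/-- The indices of the multipliers. -/
abbrev I3 : Type := Fin 3 × ZMod 2 × ZMod 2 × ZMod 2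

/-- The multipliers. -/
def mu3 (i : I3) : 𝓞 K :=
  wO ^ (i.1 : ℕ) * (if i.2.1 = 0 then 1 else -1) * (if i.2.2.1 = 0 then 1 else s3) *
    (if i.2.2.2 = 0 then 1 else 2)

theorem mu3_dlc (j : Fin 3) (e c b : ZMod 2) (S : Finset Pq) :
    mu3 (j, e, c, b) * DD S = (if b = 0 then 1 else 2) * (wO ^ (j : ℕ) * dlc (qd.A S + ⟨e, c⟩) S) := by
  have h : ∀ a x : F4, a + (a + x) = x := by decide
  unfold mu3 dlc
  rw [h]
  ring

theorem mu3_dlc' (j : Fin 3) (c : F4) (b : ZMod 2) (S : Finset Pq) :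
    (if b = 0 then 1 else 2) * (wO ^ (j : ℕ) * dlc c S) =
      mu3 (j, (qd.A S + c).a, (qd.A S + c).b, b) * DD S := by
  have h : ∀ a x : F4, a + ⟨(a + x).a, (a + x).b⟩ = x := by decide
  rw [mu3_dlc, h]

theorem two_ne3 : (2 : 𝓞 K) ≠ 0 := two_ne_zero

theorem mu3_ne (i : I3) : mu3 i ≠ 0 := by
  have h3 : s3 ≠ 0 := prime_s3.ne_zero
  have hw : wO ≠ 0 := isUnit_wO.ne_zero
  unfold mu3
  refine mul_ne_zero (mul_ne_zero (mul_ne_zero (pow_ne_zero _ hw) ?_) ?_) ?_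
  · split_ifs
    · exact one_ne_zero
    · exact neg_ne_zero.2 one_ne_zero
  · split_ifs
    · exact one_ne_zero
    · exact h3
  · split_ifs
    · exact one_ne_zero
    · exact two_ne3

/-- `ph` in terms of the multipliers. -/
theorem ph_eq (b : Bool) (j : Fin 3) (c : F4) (S : Finset Pq) :
    DensA.ph (b, j, c) (dlc c S) =
      mu3 (j, (qd.A S + c).a, (qd.A S + c).b, if b then 1 else 0) * DD S := by
  rw [← mu3_dlc']
  cases b
  · unfold DensA.ph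
    simp
  · unfold DensA.ph
    simp

theorem cl_dlc (c : F4) (S : Finset Pq) : DensC.Cl c (dlc c S) :=
  ⟨dlc_squarefree c S, dlc_two c S, cls_dlc c S⟩

theorem mu3_ph (i : I3) (S : Finset Pq) : mu3 i * DD S =
    DensA.ph (if i.2.2.2 = 0 then false else true, i.1, qd.A S + ⟨i.2.1, i.2.2.1⟩)
      (dlc (qd.A S + ⟨i.2.1, i.2.2.1⟩) S) := by
  obtain ⟨j, e, c, b⟩ := i
  rw [mu3_dlc]
  have h01 : b = 0 ∨ b = 1 := by revert b; decide
  unfold DensA.ph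
  rcases h01 with rfl | rfl
  · simp
  · simp

theorem ph_sqf' (b : Bool) (j : Fin 3) (c : F4) (S : Finset Pq) :
    Squarefree (DensA.ph (b, j, c) (dlc c S)) :=
  DensA.ph_squarefree (i := (b, j, c)) (cl_dlc c S)

theorem ph_inj' {b b' : Bool} {j j' : Fin 3} {c c' : F4} {S T : Finset Pq}
    (h : DensA.ph (b, j, c) (dlc c S) = DensA.ph (b', j', c') (dlc c' T)) :
    b = b' ∧ j = j' ∧ c = c' ∧ S = T := by
  obtain ⟨h1, h2⟩ := DensA.ph_inj (i := (b, j, c)) (i' := (b', j', c')) (cl_dlc c S)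
    (cl_dlc c' T) h
  simp only [Prod.mk.injEq] at h1
  obtain ⟨hb, hj, hc⟩ := h1
  subst hc
  exact ⟨hb, hj, rfl, dlc_inj _ h2⟩

theorem mu3_sqf (i : I3) (S : Finset Pq) : Squarefree (mu3 i * DD S) := by
  rw [mu3_ph]
  exact ph_sqf' _ _ _ _

theorem keyC : ∀ (a : F4) (e c e' c' : ZMod 2), a + ⟨e, c⟩ = a + ⟨e', c'⟩ → e = e' ∧ c = c' := by
  decide

theorem keyB : ∀ b b' : ZMod 2, (if b = 0 then false else true) = (if b' = 0 then false else true) →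
    b = b' := by decide

theorem mu3_inj (i i' : I3) (S T : Finset Pq) (h : mu3 i * DD S = mu3 i' * DD T) :
    i = i' ∧ S = T := by
  obtain ⟨j, e, c, b⟩ := i
  obtain ⟨j', e', c', b'⟩ := i'
  rw [mu3_ph, mu3_ph] at h
  obtain ⟨hb, hj, hc, hS⟩ := ph_inj' h
  subst hS
  obtain ⟨he, hc'⟩ := keyC _ _ _ _ _ hc
  have hb' := keyB _ _ hb
  simp only at hj he hc' hb'
  subst hj
  subst he
  subst hc'
  subst hb'
  exact ⟨rfl, rfl⟩

theorem mu3_surj (x : 𝓞 K) (hx : Squarefree x) : ∃ (i : I3) (S : Finset Pq), x = mu3 i * DD S := by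
  obtain ⟨⟨b, j, c⟩, y, ⟨h1, h2, h3⟩, rfl⟩ := DensA.exists_ph hx
  obtain ⟨S, rfl⟩ := exists_dlc h1 h2 h3
  exact ⟨_, S, ph_eq b j c S⟩

/-- Every class which is not divisible by four contains a multiple of a primary element. -/
theorem mu3_cls {m u : 𝓞 K} {n : ℕ} (hm : m ∣ 2 ^ n) (hu : ¬ (4 ∣ m ∧ 4 ∣ u)) :
    ∃ (i : I3) (y : 𝓞 K), InP y ∧ m ∣ mu3 i * y - u := by
  -- an element of the class which is not divisible by four
  obtain ⟨v, hv, hv4⟩ : ∃ v : 𝓞 K, m ∣ v - u ∧ ¬ (4 : 𝓞 K) ∣ v := by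
    by_cases h : (4 : 𝓞 K) ∣ u
    · refine ⟨u + m, ⟨1, by ring⟩, fun h1 => hu ⟨?_, h⟩⟩
      exact (dvd_add_right h).1 h1
    · exact ⟨u, by rw [sub_self]; exact dvd_zero _, h⟩
  -- write it as a power of two times an odd element
  obtain ⟨b, z, hz, hvz⟩ : ∃ (b : ZMod 2) (z : 𝓞 K), ¬ (2 : 𝓞 K) ∣ z ∧
      v = (if b = 0 then 1 else 2) * z := by
    by_cases h2 : (2 : 𝓞 K) ∣ v
    · obtain ⟨z, hz⟩ := h2
      refine ⟨1, z, ?_, by rw [hz]; simp⟩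
      rintro ⟨t, ht⟩
      exact hv4 ⟨t, by rw [hz, ht]; ring⟩
    · exact ⟨0, v, h2, by simp⟩
  obtain ⟨j, hj⟩ := exists_pow_w hz
  -- `wO ^ (2 * j) * z` is `1` modulo two; make it `1` modulo `s3`
  obtain ⟨z', hz'⟩ : ∃ z' : 𝓞 K, z' = wO ^ (2 * j) * z := ⟨_, rfl⟩
  rw [← hz'] at hj
  have hco : IsCoprime ((2 : 𝓞 K) ^ (n + 1)) s3 := by
    have h1 : IsCoprime (2 : 𝓞 K) s3 := by
      refine ⟨-wO, 1, ?_⟩
      unfold s3
      ring
    exact h1.pow_left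
  obtain ⟨α, β, hαβ⟩ := hco
  -- y = z' + α 2^(n+1) (1 - z')
  obtain ⟨y, hy⟩ : ∃ y : 𝓞 K, y = z' + α * 2 ^ (n + 1) * (1 - z') := ⟨_, rfl⟩
  have hy3 : s3 ∣ y - 1 := ⟨β * (z' - 1), by rw [hy]; linear_combination (1 - z') * hαβ⟩
  have hy2 : (2 : 𝓞 K) ∣ y - 1 := by
    obtain ⟨t, ht⟩ := hj
    refine ⟨t + α * 2 ^ n * (1 - z'), ?_⟩
    rw [hy, pow_succ]
    linear_combination ht
  have hyP : InP y := by
    unfold InP
    have h1 : IsCoprime (2 : 𝓞 K) s3 := by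
      refine ⟨-wO, 1, ?_⟩
      unfold s3
      ring
    exact h1.mul_dvd hy2 hy3
  have hyz : (2 : 𝓞 K) ^ n ∣ y - z' := ⟨α * 2 * (1 - z'), by rw [hy, pow_succ]; ring⟩
  refine ⟨(⟨j % 3, Nat.mod_lt _ (by norm_num)⟩, 0, 0, b), y, hyP, ?_⟩
  have e1 : mu3 (⟨j % 3, Nat.mod_lt _ (by norm_num)⟩, 0, 0, b) =
      wO ^ (j % 3) * (if b = 0 then 1 else 2) := by
    unfold mu3
    simp
  have e2 : wO ^ (j % 3) * wO ^ (2 * j) = 1 := by
    have h3 : wO ^ (j % 3) = wO ^ j := by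
      conv_rhs => rw [← Nat.div_add_mod j 3, pow_add, pow_mul,
        Pool.Agent.Lib.MP_1a91b9_ntH2.wO_cube, one_pow, one_mul]
    rw [h3, ← pow_add, show j + 2 * j = 3 * j by ring, pow_mul,
      Pool.Agent.Lib.MP_1a91b9_ntH2.wO_cube, one_pow]
  have e3 : mu3 (⟨j % 3, Nat.mod_lt _ (by norm_num)⟩, 0, 0, b) * z' = v := by
    rw [e1, hz', hvz]
    linear_combination ((if b = 0 then 1 else 2 : 𝓞 K) * z) * e2
  have e4 : mu3 (⟨j % 3, Nat.mod_lt _ (by norm_num)⟩, 0, 0, b) * y - u =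
      mu3 (⟨j % 3, Nat.mod_lt _ (by norm_num)⟩, 0, 0, b) * (y - z') + (v - u) := by
    rw [← e3]
    ring
  rw [e4]
  exact dvd_add ((hm.trans hyz).mul_left _) hv

end

end Pool.Agent.Lib.MP_1a91b9_ntS.G
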