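import Pool.Agent.Lib.MP_1a91b9_ntR.Den

/-!
# MP_1a91b9_nt: transfer of the density for a general family of multipliers

The squarefree elements are the `μ i * DD S`. A lower bound for the proportion of the good sets `S`
in each family (class of `DD S` modulo `Q`, fixed `i`) gives the same lower bound among the
squarefree elements with a condition `Rc`; also for upper bounds.
-/

set_option autoImplicit false
set_option linter.unusedSectionVars false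

namespace Pool.Agent.Lib.MP_1a91b9_ntS.G

open Finset
open Pool.Agent.Lib.MP_1a91b9_ntH (PS nm pr mem_pr Sx mem_Sx)
open Pool.Agent.Lib.MP_1a91b9_ntR (Qi Pri Pg DD sys prm psPg nG nG_mul nG_eq_zero GR gc cq gc_DD gc_eq_iff
  gc_surj SR mem_SR SP mem_SP SP_not finite_quot finite_GR class_card_ge abs_norm_le nG_fin in_DD
  finite_quot norm_eq_nG tendsto_of)

noncomputable section

variable {R : Type} [CommRing R] [IsDomain R] [IsPrincipalIdealRing R] [Qi R] [Pri R] {Q : R}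

/-! ### The families -/

variable {I : Type} [Fintype I] [DecidableEq I] {μ : I → R}

/-- The multipliers of a representation of the squarefree elements. -/
structure FamI (μ : I → R) : Prop where
  ne : ∀ i, μ i ≠ 0
  sqf : ∀ (i : I) (S : Finset (Pg R)), Squarefree (μ i * DD S)
  inj : ∀ (i j : I) (S T : Finset (Pg R)), μ i * DD S = μ j * DD T → i = j ∧ S = T
  surj : ∀ x : R, Squarefree x → ∃ (i : I) (S : Finset (Pg R)), x = μ i * DD S


/-- The bound for the norm of the primary factor. -/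
def NI (μ : I → R) (i : I) (X : ℝ) : ℕ := ⌊X / (nG (μ i) : ℝ)⌋₊

omit [IsPrincipalIdealRing R] in
theorem FamI.nG_mu_pos (h : FamI μ) (i : I) : (1 : ℝ) ≤ (nG (μ i) : ℝ) := by
  have h1 : 0 < nG (μ i) := Nat.pos_of_ne_zero fun h0 => h.ne i (nG_eq_zero.1 h0)
  exact_mod_cast h1

theorem FamI.nG_le (h : FamI μ) (i : I) (S : Finset (Pg R)) {X : ℝ}
    (hX : 0 ≤ X) : (nG (μ i * DD S) : ℝ) ≤ X ↔ nm S ≤ NI μ i X := by
  have h1 := h.nG_mu_pos i
  have h2 : (0 : ℝ) < (nG (μ i) : ℝ) := by linarith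
  have e : nG (DD S) = nm S := (prm R).nG_dd S
  rw [nG_mul, e, NI, Nat.le_floor_iff (by positivity), le_div_iff₀ h2]
  push_cast
  rw [mul_comm]

theorem FamI.NI_le (h : FamI μ) (i : I) {X : ℝ} (hX : 0 ≤ X) :
    (NI μ i X : ℝ) ≤ X := by
  have h1 := h.nG_mu_pos i
  unfold NI
  refine (Nat.floor_le (by positivity)).trans ?_
  exact div_le_self hX h1

theorem FamI.le_NI (h : FamI μ) (i : I) {X : ℝ}
    (hX : 2 * (nG (μ i) : ℝ) ≤ X) : X / (2 * (nG (μ i) : ℝ)) ≤ (NI μ i X : ℝ) := by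
  have h1 := h.nG_mu_pos i
  have h2 : (0 : ℝ) < (nG (μ i) : ℝ) := by linarith
  have h3 := Nat.lt_floor_add_one (X / (nG (μ i) : ℝ))
  have h4 : X / (nG (μ i) : ℝ) = 2 * (X / (2 * (nG (μ i) : ℝ))) := by
    field_simp
  have h5 : 1 ≤ X / (2 * (nG (μ i) : ℝ)) := by
    rw [le_div_iff₀ (by positivity), one_mul]
    exact hX
  unfold NI
  linarith

theorem FamI.tendsto_NI (h : FamI μ) (i : I) :
    Filter.Tendsto (NI μ i) Filter.atTop Filter.atTop := by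
  have h1 := h.nG_mu_pos i
  unfold NI
  exact tendsto_nat_floor_atTop.comp (Filter.tendsto_id.atTop_div_const (by linarith))

open Classical in
theorem FamI.card_all (h : FamI μ) {X : ℝ} (hX : 0 ≤ X) (P : R → Prop) :
    Nat.card {x : R // Squarefree x ∧ (nG x : ℝ) ≤ X ∧ P x} =
      ∑ i : I, ((Sx (Pg R) (NI μ i X)).filter fun S => P (μ i * DD S)).card := by
  have e : ∑ i : I,
      ((Sx (Pg R) (NI μ i X)).filter fun S => P (μ i * DD S)).card =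
      Nat.card ((i : I) ×
        {S // S ∈ (Sx (Pg R) (NI μ i X)).filter fun S => P (μ i * DD S)}) := by
    rw [Nat.card_sigma]
    refine sum_congr rfl fun i _ => ?_
    rw [Nat.card_eq_fintype_card, Fintype.card_coe]
  rw [e]
  symm
  refine Nat.card_congr (Equiv.ofBijective
    (fun s => ⟨μ s.1 * DD s.2.1, h.sqf _ _, (h.nG_le _ _ hX).2
      (mem_Sx.1 (mem_filter.1 s.2.2).1), (mem_filter.1 s.2.2).2⟩) ⟨?_, ?_⟩)
  · rintro ⟨i, S, hS⟩ ⟨j, S', hS'⟩ h0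
    have h1 : μ i * DD S = μ j * DD S' := congrArg Subtype.val h0
    obtain ⟨rfl, rfl⟩ := h.inj _ _ _ _ h1
    rfl
  · rintro ⟨x, h1, h2, h3⟩
    obtain ⟨i, S, rfl⟩ := h.surj _ h1
    refine ⟨⟨i, S, ?_⟩, rfl⟩
    rw [mem_filter, mem_Sx]
    exact ⟨(h.nG_le i S hX).1 h2, h3⟩

/-- The condition `Rc` only depends on the multiplier and the class of the primary factor. -/
def CndI (μ : I → R) (Q : R) (Rc : R → Prop) : Prop :=
  ∀ (i : I) (y y' : R), Pri.In y → Pri.In y' → Q ∣ y - y' →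
    (Rc (μ i * y) ↔ Rc (μ i * y'))

/-- The families have the density at least `κ`. -/
def LowI (hQ : (sys R).Mod Q) (μ : I → R) (Rc : R → Prop) (κ : ℝ)
    (Good : I → Finset (Pg R) → Prop) : Prop :=
  ∀ (i : I) (g : GR hQ),
    (∃ (y : R) (hy : Pri.In y), gc hQ y hy = g ∧ Rc (μ i * y)) →
    ∀ ε : ℝ, 0 < ε → ∃ X₀ : ℕ, ∀ X : ℕ, X₀ ≤ X →
    κ * ((SR hQ g X).card : ℝ) - ε * X ≤ ((SP hQ g X (Good i)).card : ℝ)

/-- The families have the density at most `κ`. -/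
def UppI (hQ : (sys R).Mod Q) (μ : I → R) (Rc : R → Prop) (κ : ℝ)
    (Good : I → Finset (Pg R) → Prop) : Prop :=
  ∀ (i : I) (g : GR hQ),
    (∃ (y : R) (hy : Pri.In y), gc hQ y hy = g ∧ Rc (μ i * y)) →
    ∀ ε : ℝ, 0 < ε → ∃ X₀ : ℕ, ∀ X : ℕ, X₀ ≤ X →
    ((SP hQ g X (Good i)).card : ℝ) ≤ κ * ((SR hQ g X).card : ℝ) + ε * X

open Classical in
theorem FamI.den (hB : FamI μ) (hQ : (sys R).Mod Q) (hQ0 : Q ≠ 0) (Rc : R → Prop)
    (hR : CndI μ Q Rc)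
    (hne : ∃ (i : I) (y : R), Pri.In y ∧ Rc (μ i * y))
    (κ κ' : ℝ) (hκ : κ' < κ) (Good : I → Finset (Pg R) → Prop)
    (h : LowI hQ μ Rc κ Good) (P : R → Prop)
    (hP : ∀ (i : I) (S : Finset (Pg R)), Rc (μ i * DD S) → Good i S →
      P (μ i * DD S)) :
    ∀ᶠ X : ℝ in Filter.atTop,
      0 < (Nat.card {x : R // Squarefree x ∧ Rc x ∧ |Algebra.norm ℤ x| ≤ X} : ℝ) ∧
      κ' * (Nat.card {x : R // Squarefree x ∧ Rc x ∧ |Algebra.norm ℤ x| ≤ X} : ℝ) ≤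
        (Nat.card {x : R // Squarefree x ∧ Rc x ∧ |Algebra.norm ℤ x| ≤ X ∧ P x} : ℝ) := by
  have hfin2 := finite_GR hQ hQ0
  let _ : Fintype (GR hQ) := Fintype.ofFinite _
  -- the families
  obtain ⟨J, hJ⟩ : ∃ J : Finset (I × GR hQ), ∀ i, i ∈ J ↔
      ∃ (y : R) (hy : Pri.In y), gc hQ y hy = i.2 ∧ Rc (μ i.1 * y) :=
    ⟨univ.filter fun i => ∃ (y : R) (hy : Pri.In y), gc hQ y hy = i.2 ∧ Rc (μ i.1 * y),
      fun i => by rw [mem_filter, and_iff_right (mem_univ _)]⟩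
  have hRi : ∀ (i : I × GR hQ) (S : Finset (Pg R)),
      ∑ q ∈ S, cq hQ q = i.2 → (Rc (μ i.1 * DD S) ↔ i ∈ J) := by
    intro i S hS
    rw [← gc_DD] at hS
    rw [hJ]
    constructor
    · intro h1
      exact ⟨DD S, in_DD S, hS, h1⟩
    · rintro ⟨y, hy, h1, h2⟩
      rw [← h1, gc_eq_iff] at hS
      exact (hR _ _ _ (in_DD S) hy hS).2 h2
  obtain ⟨i₀, hi₀⟩ : J.Nonempty := by
    obtain ⟨i, y, hy, h1⟩ := hne
    exact ⟨(i, gc hQ y hy), (hJ _).2 ⟨y, hy, rfl, h1⟩⟩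
  -- the numbers
  have hcount : ∀ (X : ℝ), 0 ≤ X → ∀ P : R → Prop,
      Nat.card {x : R // Squarefree x ∧ Rc x ∧ (nG x : ℝ) ≤ X ∧ P x} =
        ∑ i ∈ J, (SP hQ i.2 (NI μ i.1 X) fun S => P (μ i.1 * DD S)).card := by
    intro X hX P
    obtain ⟨P', hP'⟩ : ∃ P' : R → Prop, ∀ x, P' x ↔ Rc x ∧ P x := ⟨fun x => Rc x ∧ P x, fun _ => Iff.rfl⟩
    have e : Nat.card {x : R // Squarefree x ∧ Rc x ∧ (nG x : ℝ) ≤ X ∧ P x} =
        Nat.card {x : R // Squarefree x ∧ (nG x : ℝ) ≤ X ∧ P' x} :=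
      Nat.card_congr (Equiv.subtypeEquivRight fun x => by
        rw [hP']
        constructor
        · rintro ⟨a, b, c, d⟩
          exact ⟨a, c, b, d⟩
        · rintro ⟨a, c, b, d⟩
          exact ⟨a, b, c, d⟩)
    rw [e, hB.card_all hX P']
    have e2 : ∀ i : I,
        ((Sx (Pg R) (NI μ i X)).filter fun S => P' (μ i * DD S)).card =
        ∑ g : GR hQ, if (i, g) ∈ J then (SP hQ g (NI μ i X) fun S =>
          P (μ i * DD S)).card else 0 := by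
      intro i
      rw [card_eq_sum_card_fiberwise (f := fun S : Finset (Pg R) => ∑ q ∈ S, cq hQ q)
        (t := (univ : Finset (GR hQ))) (fun _ _ => mem_coe.2 (mem_univ _))]
      refine sum_congr rfl fun g _ => ?_
      rw [filter_filter]
      split_ifs with hg
      · congr 1
        ext S
        rw [mem_filter, mem_SP, mem_SR, mem_Sx, hP']
        constructor
        · rintro ⟨a, ⟨-, b⟩, c⟩
          exact ⟨⟨a, c⟩, b⟩
        · rintro ⟨⟨a, c⟩, b⟩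
          exact ⟨a, ⟨(hRi (i, g) S c).2 hg, b⟩, c⟩
      · rw [card_eq_zero, filter_eq_empty_iff]
        rintro S _ ⟨a, b⟩
        exact hg ((hRi (i, g) S b).1 ((hP' _).1 a).1)
    rw [sum_congr rfl fun i _ => e2 i]
    have e3 : ∑ i ∈ J, (SP hQ i.2 (NI μ i.1 X) fun S => P (μ i.1 * DD S)).card =
        ∑ i : I × GR hQ, if i ∈ J then
          (SP hQ i.2 (NI μ i.1 X) fun S => P (μ i.1 * DD S)).card else 0 := by
      rw [sum_ite_mem, univ_inter]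
    rw [e3, Fintype.sum_prod_type (f := fun i : I × GR hQ =>
      if i ∈ J then (SP hQ i.2 (NI μ i.1 X) fun S => P (μ i.1 * DD S)).card else 0)]
  have hcount' : ∀ (X : ℝ), 0 ≤ X →
      Nat.card {x : R // Squarefree x ∧ Rc x ∧ (nG x : ℝ) ≤ X} =
        ∑ i ∈ J, (SR hQ i.2 (NI μ i.1 X)).card := by
    intro X hX
    have := hcount X hX (fun _ => True)
    simp only [and_true] at this
    rw [this]
    refine sum_congr rfl fun i _ => ?_
    congr 1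
    ext S
    rw [mem_SP, and_true]
  -- the constants
  obtain ⟨c, hc, X₁, hX₁⟩ := class_card_ge hQ hQ0 i₀.2
  obtain ⟨n, hn⟩ : ∃ n : ℝ, n = (J.card : ℝ) := ⟨_, rfl⟩
  have hn0 : 0 < n := by
    rw [hn]
    exact_mod_cast card_pos.2 ⟨i₀, hi₀⟩
  obtain ⟨K, hK⟩ : ∃ K : ℝ, K = 2 * (nG (μ i₀.1) : ℝ) := ⟨_, rfl⟩
  have hK0 : 0 < K := by
    have := hB.nG_mu_pos i₀.1
    rw [hK]
    linarith
  have hd : 0 < κ - κ' := by linarith
  obtain ⟨ε, hε⟩ : ∃ ε : ℝ, ε = (κ - κ') * c / (K * n) := ⟨_, rfl⟩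
  have hε0 : 0 < ε := by
    rw [hε]
    positivity
  have h' : ∀ i ∈ J, ∃ X₀ : ℕ, ∀ X : ℕ, X₀ ≤ X →
      κ * ((SR hQ i.2 X).card : ℝ) - ε * X ≤
        ((SP hQ i.2 X (Good i.1)).card : ℝ) :=
    fun i hi => h i.1 i.2 ((hJ i).1 hi) ε hε0
  have hev : ∀ i ∈ J, ∀ᶠ X : ℝ in Filter.atTop,
      κ * ((SR hQ i.2 (NI μ i.1 X)).card : ℝ) - ε * (NI μ i.1 X : ℝ) ≤
        ((SP hQ i.2 (NI μ i.1 X) (Good i.1)).card : ℝ) := by
    intro i hi
    obtain ⟨X₀, hX₀⟩ := h' i hi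
    filter_upwards [(hB.tendsto_NI i.1).eventually_ge_atTop X₀] with X hX
    exact hX₀ _ hX
  have hev2 := (Filter.eventually_all_finset J).2 hev
  filter_upwards [hev2, (hB.tendsto_NI i₀.1).eventually_ge_atTop X₁,
    Filter.eventually_ge_atTop K] with X hX hX1 hX4
  have hX0 : (0 : ℝ) ≤ X := by linarith
  simp only [abs_norm_le]
  rw [hcount X hX0 P, hcount' X hX0]
  push_cast
  -- the lower bound for the denominator
  have hden : c * (X / K) ≤ ∑ i ∈ J, ((SR hQ i.2 (NI μ i.1 X)).card : ℝ) := by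
    have h1 := hX₁ _ hX1
    have h0 : X / K ≤ (NI μ i₀.1 X : ℝ) := by
      rw [hK] at hX4 ⊢
      exact hB.le_NI i₀.1 hX4
    have h2 : c * (X / K) ≤ c * (NI μ i₀.1 X : ℝ) := mul_le_mul_of_nonneg_left h0 hc.le
    have h3 : ((SR hQ i₀.2 (NI μ i₀.1 X)).card : ℝ) ≤
        ∑ i ∈ J, ((SR hQ i.2 (NI μ i.1 X)).card : ℝ) :=
      single_le_sum (f := fun i : I × GR hQ =>
        ((SR hQ i.2 (NI μ i.1 X)).card : ℝ)) (fun _ _ => Nat.cast_nonneg _) hi₀
    linarith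
  have hXp : 0 < X := lt_of_lt_of_le hK0 hX4
  have hpos : (0 : ℝ) < ∑ i ∈ J, ((SR hQ i.2 (NI μ i.1 X)).card : ℝ) :=
    lt_of_lt_of_le (by positivity) hden
  refine ⟨hpos, ?_⟩
  -- the numerator
  have hnum : κ * ∑ i ∈ J, ((SR hQ i.2 (NI μ i.1 X)).card : ℝ) - n * (ε * X) ≤
      ∑ i ∈ J, ((SP hQ i.2 (NI μ i.1 X) fun S => P (μ i.1 * DD S)).card : ℝ) := by
    have h1 : ∀ i ∈ J, κ * ((SR hQ i.2 (NI μ i.1 X)).card : ℝ) - ε * X ≤
        ((SP hQ i.2 (NI μ i.1 X) fun S => P (μ i.1 * DD S)).card : ℝ) := by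
      intro i hi
      have h2 := hX i hi
      have h3 : ε * (NI μ i.1 X : ℝ) ≤ ε * X :=
        mul_le_mul_of_nonneg_left (hB.NI_le _ hX0) hε0.le
      have h4 : ((SP hQ i.2 (NI μ i.1 X) (Good i.1)).card : ℝ) ≤
          ((SP hQ i.2 (NI μ i.1 X) fun S => P (μ i.1 * DD S)).card : ℝ) := by
        refine Nat.cast_le.2 (card_le_card ?_)
        intro S hS
        rw [mem_SP] at hS ⊢
        exact ⟨hS.1, hP _ S ((hRi i S (mem_SR.1 hS.1).2).2 hi) hS.2⟩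
      linarith
    have h5 := sum_le_sum h1
    rw [sum_sub_distrib, ← mul_sum, sum_const, nsmul_eq_mul, ← hn] at h5
    exact h5
  have hfin : n * (ε * X) = (κ - κ') * (c * (X / K)) := by
    rw [hε]
    field_simp
  have hfin2 : (κ - κ') * (c * (X / K)) ≤
      (κ - κ') * ∑ i ∈ J, ((SR hQ i.2 (NI μ i.1 X)).card : ℝ) :=
    mul_le_mul_of_nonneg_left hden hd.le
  linarith

theorem lowI_not {hQ : (sys R).Mod Q} {Rc : R → Prop} {κ : ℝ}
    {Good : I → Finset (Pg R) → Prop} (h : UppI hQ μ Rc κ Good) :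
    LowI hQ μ Rc (1 - κ) (fun i S => ¬ Good i S) := by
  intro i g hg ε hε
  obtain ⟨X₀, hX₀⟩ := h i g hg ε hε
  refine ⟨X₀, fun X hX => ?_⟩
  have h1 := hX₀ X hX
  have h2 := SP_not (hQ := hQ) (g := g) (X := X) (P := Good i)
  have h3 : ((SP hQ g X (Good i)).card : ℝ) + ((SP hQ g X fun S => ¬ Good i S).card : ℝ) =
      ((SR hQ g X).card : ℝ) := by
    exact_mod_cast h2
  linarith

/-- **The lower bound for the density.** -/
theorem FamI.low (hB : FamI μ) (hQ : (sys R).Mod Q) (hQ0 : Q ≠ 0) {Rc : R → Prop}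
    (hR : CndI μ Q Rc)
    (hne : ∃ (i : I) (y : R), Pri.In y ∧ Rc (μ i * y))
    {κ κ' : ℝ} (hκ : κ' < κ) {Good : I → Finset (Pg R) → Prop}
    (h : LowI hQ μ Rc κ Good) (P : R → Prop)
    (hP : ∀ (i : I) (S : Finset (Pg R)), Rc (μ i * DD S) → Good i S →
      P (μ i * DD S)) :
    ∀ᶠ X : ℝ in Filter.atTop,
      κ' ≤ (Nat.card {x : R // Squarefree x ∧ Rc x ∧ |Algebra.norm ℤ x| ≤ X ∧ P x} : ℝ) /
        (Nat.card {x : R // Squarefree x ∧ Rc x ∧ |Algebra.norm ℤ x| ≤ X} : ℝ) := by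
  filter_upwards [hB.den hQ hQ0 Rc hR hne κ κ' hκ Good h P hP] with X hX
  rw [le_div_iff₀ hX.1]
  exact hX.2

/-- The number of the elements with and without a property. -/
theorem FamI.card_split (hB : FamI μ) {X : ℝ} (hX : 0 ≤ X) (Rc P : R → Prop) :
    (Nat.card {x : R // Squarefree x ∧ Rc x ∧ |Algebra.norm ℤ x| ≤ X ∧ P x}) +
      (Nat.card {x : R // Squarefree x ∧ Rc x ∧ |Algebra.norm ℤ x| ≤ X ∧ ¬ P x}) =
      Nat.card {x : R // Squarefree x ∧ Rc x ∧ |Algebra.norm ℤ x| ≤ X} := by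
  classical
  have hfin : Finite {x : R // Squarefree x ∧ Rc x ∧ |Algebra.norm ℤ x| ≤ X} := by
    have h1 : {x : R | Squarefree x ∧ Rc x ∧ ((|Algebra.norm ℤ x| : ℤ) : ℝ) ≤ X} ⊆
        {x : R | nG x ≤ ⌊X⌋₊} := by
      rintro x ⟨-, -, h⟩
      rw [abs_norm_le] at h
      exact Nat.le_floor h
    exact ((nG_fin ⌊X⌋₊).subset h1).to_subtype
  have e1 : Nat.card {x : R // Squarefree x ∧ Rc x ∧ |Algebra.norm ℤ x| ≤ X ∧ P x} =
      Nat.card {y : {x : R // Squarefree x ∧ Rc x ∧ |Algebra.norm ℤ x| ≤ X} // P y.1} :=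
    Nat.card_congr ⟨fun x => ⟨⟨x.1, x.2.1, x.2.2.1, x.2.2.2.1⟩, x.2.2.2.2⟩,
      fun y => ⟨y.1.1, y.1.2.1, y.1.2.2.1, y.1.2.2.2, y.2⟩, fun _ => rfl, fun _ => rfl⟩
  have e2 : Nat.card {x : R // Squarefree x ∧ Rc x ∧ |Algebra.norm ℤ x| ≤ X ∧ ¬ P x} =
      Nat.card {y : {x : R // Squarefree x ∧ Rc x ∧ |Algebra.norm ℤ x| ≤ X} // ¬ P y.1} :=
    Nat.card_congr ⟨fun x => ⟨⟨x.1, x.2.1, x.2.2.1, x.2.2.2.1⟩, x.2.2.2.2⟩,
      fun y => ⟨y.1.1, y.1.2.1, y.1.2.2.1, y.1.2.2.2, y.2⟩, fun _ => rfl, fun _ => rfl⟩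
  rw [e1, e2, ← Nat.card_sum]
  exact Nat.card_congr (Equiv.sumCompl fun y :
    {x : R // Squarefree x ∧ Rc x ∧ |Algebra.norm ℤ x| ≤ X} => P y.1)

/-- **The upper bound for the density.** -/
theorem FamI.upp (hB : FamI μ) (hQ : (sys R).Mod Q) (hQ0 : Q ≠ 0) {Rc : R → Prop}
    (hR : CndI μ Q Rc)
    (hne : ∃ (i : I) (y : R), Pri.In y ∧ Rc (μ i * y))
    {κ κ' : ℝ} (hκ : κ < κ') {Good : I → Finset (Pg R) → Prop}
    (h : UppI hQ μ Rc κ Good) (P : R → Prop)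
    (hP : ∀ (i : I) (S : Finset (Pg R)), Rc (μ i * DD S) →
      P (μ i * DD S) → Good i S) :
    ∀ᶠ X : ℝ in Filter.atTop,
      (Nat.card {x : R // Squarefree x ∧ Rc x ∧ |Algebra.norm ℤ x| ≤ X ∧ P x} : ℝ) /
        (Nat.card {x : R // Squarefree x ∧ Rc x ∧ |Algebra.norm ℤ x| ≤ X} : ℝ) ≤ κ' := by
  have h1 := hB.den hQ hQ0 Rc hR hne (1 - κ) (1 - κ') (by linarith) (fun i S => ¬ Good i S)
    (lowI_not h) (fun x => ¬ P x) (fun i S hRc hg hp => hg (hP i S hRc hp))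
  filter_upwards [h1, Filter.eventually_ge_atTop (0 : ℝ)] with X hX hX0
  rw [div_le_iff₀ hX.1]
  have h2 : (Nat.card {x : R // Squarefree x ∧ Rc x ∧ |Algebra.norm ℤ x| ≤ X ∧ P x} : ℝ) +
      (Nat.card {x : R // Squarefree x ∧ Rc x ∧ |Algebra.norm ℤ x| ≤ X ∧ ¬ P x} : ℝ) =
      (Nat.card {x : R // Squarefree x ∧ Rc x ∧ |Algebra.norm ℤ x| ≤ X} : ℝ) := by
    exact_mod_cast hB.card_split hX0 Rc P
  have h3 := hX.2
  linarith

/-- The condition of a class modulo `m`, a divisor of `Q`. -/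
theorem cndI_cls {m u : R} (hm : m ∣ Q) : CndI μ Q (fun x => m ∣ x - u) := by
  intro i y y' _ _ hyy
  have h1 : m ∣ μ i * y - μ i * y' := by
    refine (hm.trans hyy).trans ⟨μ i, ?_⟩
    ring
  constructor
  · intro h2
    have h3 := dvd_sub h2 h1
    have e : μ i * y - u - (μ i * y - μ i * y') = μ i * y' - u := by ring
    rwa [e] at h3
  · intro h2
    have h3 := dvd_add h2 h1
    have e : μ i * y' - u + (μ i * y - μ i * y') = μ i * y - u := by ring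
    rwa [e] at h3

end

end Pool.Agent.Lib.MP_1a91b9_ntS.G
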