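import Pool.Agent.Lib.MP_1a91b9_ntR.Den
import Pool.Agent.Lib.MP_1a91b9_ntE.R.Two
import Pool.Agent.Lib.MP_1a91b9_ntS.DG.GDef

/-!
# MP_1a91b9_nt (twists over `Q(sqrt -3)`, classes modulo powers of two): the instances of the generic
part R and the classes modulo `2 ^ (n + 2) * s3`
-/

set_option autoImplicit false

namespace Pool.Agent.Lib.MP_1a91b9_ntS.G

open NumberField Finset Pool.Agent.Lib.MP_1a91b9_ntT
open Pool.Agent.Lib.MP_1a91b9_ntH (PS nm Sx mem_Sx F4 Pq cp eq_cp cp_coords cp_add cp_mul mulE Nz wO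
  s3 s3_sq wO_quad InP inP_one unit_eq_one exists_unit prime_s3 Nz_coords red half cls_mul cls_congr
  cls_one qd)
open Pool.Agent.Lib.MP_1a91b9_ntR (Qi Pri nG nG_cast nfG mulG sys GR gc cq gc_eq_iff gc_surj psPg
  SR mem_SR finite_quot finite_GR sys_com QSys)
open Pool.Agent.Lib.MP_1a91b9_ntE (qE)
open Pool.Agent.Lib.MP_1a91b9_ntS.DG (ClG SG)

noncomputable section

/-- The form `x² + x y + y²`. -/
def F3 : Pool.Agent.Lib.MP_1a91b9_ntR.Frm := ⟨1, 1, Or.inr rfl, by norm_num, by norm_num⟩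

instance qi3 : Qi (𝓞 K) where
  F := F3
  co := {
    toFun := fun x => ((cp x).1 - (cp x).2, (cp x).2)
    invFun := fun p => ((p.1 + p.2 : ℤ) : 𝓞 K) + ((p.2 : ℤ) : 𝓞 K) * wO
    left_inv := fun x => by
      show (((cp x).1 - (cp x).2 + (cp x).2 : ℤ) : 𝓞 K) + (((cp x).2 : ℤ) : 𝓞 K) * wO = x
      rw [sub_add_cancel]
      exact (eq_cp x).symm
    right_inv := fun p => by
      show ((cp (((p.1 + p.2 : ℤ) : 𝓞 K) + ((p.2 : ℤ) : 𝓞 K) * wO)).1 -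
        (cp (((p.1 + p.2 : ℤ) : 𝓞 K) + ((p.2 : ℤ) : 𝓞 K) * wO)).2,
        (cp (((p.1 + p.2 : ℤ) : 𝓞 K) + ((p.2 : ℤ) : 𝓞 K) * wO)).2) = p
      rw [cp_coords]
      exact Prod.ext (add_sub_cancel_right p.1 p.2) rfl
    map_add' := fun x y => by
      rw [cp_add]
      refine Prod.ext ?_ rfl
      show (cp x).1 + (cp y).1 - ((cp x).2 + (cp y).2) = (cp x).1 - (cp x).2 + ((cp y).1 - (cp y).2)
      ring }
  co_mul x y := by
    show ((cp (x * y)).1 - (cp (x * y)).2, (cp (x * y)).2) =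
      mulG F3 ((cp x).1 - (cp x).2, (cp x).2) ((cp y).1 - (cp y).2, (cp y).2)
    rw [cp_mul]
    simp only [mulG, F3, mulE]
    refine Prod.ext ?_ ?_
    · simp only
      ring
    · simp only
      ring

theorem nG_cp (x : 𝓞 K) : (nG x : ℤ) = (cp x).1 ^ 2 - (cp x).1 * (cp x).2 + (cp x).2 ^ 2 := by
  rw [nG_cast]
  change ((cp x).1 - (cp x).2) ^ 2 + (1 : ℤ) * ((cp x).1 - (cp x).2) * (cp x).2 +
    1 * (cp x).2 ^ 2 = _
  ring

theorem nG_eq_Nz (x : 𝓞 K) : nG x = Nz x := by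
  have h1 := Nz_coords (cp x).1 (cp x).2
  rw [← eq_cp x] at h1
  have h : (nG x : ℤ) = (Nz x : ℤ) := by rw [nG_cp, h1]
  exact_mod_cast h

theorem s3_ne : s3 ≠ 0 := prime_s3.ne_zero

instance pri3 : Pri (𝓞 K) where
  In := InP
  M := 2 * s3
  ne := mul_ne_zero two_ne_zero s3_ne
  in_one := inP_one
  mul_in _ _ hx := ⟨fun h => InP.of_mul hx h, fun h => InP.mul hx h⟩
  con x y h hx := by
    have h1 := dvd_sub hx h
    have e : x - 1 - (x - y) = y - 1 := by ring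
    rwa [e] at h1
  zero h := h.ne_zero rfl
  cop x hx := by
    obtain ⟨t, ht⟩ := hx
    exact ⟨1, -t, by linear_combination ht⟩
  odd x hx := by
    rw [nG_eq_Nz]
    have := hx.Nz_mod
    omega
  unit u hu h := unit_eq_one hu h
  ex x hx := by
    refine exists_unit (fun h => ?_) fun h => ?_
    · have h1 : IsUnit (2 : 𝓞 K) := hx.isUnit_of_dvd' h (dvd_mul_right _ _)
      have h2 : IsUnit s3 ∨ ¬ IsUnit s3 := em _
      have h3 := Pool.Agent.Lib.MP_1a91b9_ntH.isUnit_iff_Nz.1 h1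
      have h4 := Nz_coords 2 0
      have e : ((2 : ℤ) : 𝓞 K) + ((0 : ℤ) : 𝓞 K) * wO = 2 := by push_cast; ring
      rw [e, h3] at h4
      norm_num at h4
    · exact prime_s3.not_isUnit (hx.isUnit_of_dvd' h (dvd_mul_left _ _))

theorem Pg_eq : Pool.Agent.Lib.MP_1a91b9_ntR.Pg (𝓞 K) = Pq := rfl

/-- The structure of a set of primes on `Pq`. -/
@[reducible] def psQ : PS Pq := inferInstance

/-- The two structures of a set of primes agree. -/
theorem ps_eq : (psPg : PS (Pool.Agent.Lib.MP_1a91b9_ntR.Pg (𝓞 K))) = psQ := by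
  have h : (fun q : Pq => nG q.1) = fun q : Pq => Nz q.1 := by
    funext q
    exact nG_eq_Nz q.1
  have key : ∀ (A B : PS Pq), A.N = B.N → A = B := by
    rintro ⟨n1, a1, b1⟩ ⟨n2, a2, b2⟩ h
    subst h
    rfl
  exact key _ _ h

/-- The modulus. -/
def Q3 (n : ℕ) : 𝓞 K := 2 ^ (n + 2) * s3

theorem Q3_ne (n : ℕ) : Q3 n ≠ 0 := mul_ne_zero (pow_ne_zero _ two_ne_zero) s3_ne

theorem mod3 (n : ℕ) : (sys (𝓞 K)).Mod (Q3 n) where
  dvd := by
    show 2 * s3 ∣ 2 ^ (n + 2) * s3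
    exact ⟨2 ^ (n + 1), by ring⟩
  cop x hx := by
    obtain ⟨t, ht⟩ : 2 * s3 ∣ x - 1 := hx
    have h1 : IsCoprime x (2 * s3) := ⟨1, -t, by linear_combination ht⟩
    have h2 : IsCoprime x (2 : 𝓞 K) := h1.of_mul_right_left
    exact h2.pow_right.mul_right h1.of_mul_right_right

theorem four_dvd_Q3 (n : ℕ) : (4 : 𝓞 K) ∣ Q3 n := ⟨2 ^ n * s3, by unfold Q3; ring⟩

/-- The class modulo four of a class. -/
def aG3 (n : ℕ) : GR (mod3 n) →+ F4 :=
  AddMonoidHom.mk' (fun g => red (half (QSys.rep (D := sys (𝓞 K)) (mod3 n) g))) (fun a b => by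
    have ha : InP (QSys.rep (D := sys (𝓞 K)) (mod3 n) a) := QSys.rep_in (D := sys (𝓞 K)) (mod3 n) a
    have hb : InP (QSys.rep (D := sys (𝓞 K)) (mod3 n) b) := QSys.rep_in (D := sys (𝓞 K)) (mod3 n) b
    have hab : InP (QSys.rep (D := sys (𝓞 K)) (mod3 n) (a + b)) :=
      QSys.rep_in (D := sys (𝓞 K)) (mod3 n) (a + b)
    rw [← cls_mul ha.two hb.two]
    refine cls_congr hab.two ((four_dvd_Q3 n).trans ?_)
    have h1 : QSys.gq (D := sys (𝓞 K)) (mod3 n) (QSys.rep (D := sys (𝓞 K)) (mod3 n) (a + b))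
        (QSys.rep_in (D := sys (𝓞 K)) (mod3 n) (a + b)) =
        QSys.gq (D := sys (𝓞 K)) (mod3 n) (QSys.rep (D := sys (𝓞 K)) (mod3 n) a *
          QSys.rep (D := sys (𝓞 K)) (mod3 n) b)
          ((QSys.rep_in (D := sys (𝓞 K)) (mod3 n) a).mul
            (QSys.rep_in (D := sys (𝓞 K)) (mod3 n) b)) := by
      rw [QSys.gq_mul (D := sys (𝓞 K)) (mod3 n) (QSys.rep_in (D := sys (𝓞 K)) (mod3 n) a)
        (QSys.rep_in (D := sys (𝓞 K)) (mod3 n) b), QSys.gq_rep, QSys.gq_rep, QSys.gq_rep]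
    exact (QSys.gq_eq_iff (D := sys (𝓞 K)) (mod3 n) _ _).1 h1)

theorem aG3_gc (n : ℕ) {x : 𝓞 K} (hx : InP x) : aG3 n (gc (mod3 n) x hx) = red (half x) := by
  have h1 : Q3 n ∣ QSys.rep (D := sys (𝓞 K)) (mod3 n) (gc (mod3 n) x hx) - x :=
    QSys.dvd_rep (D := sys (𝓞 K)) (mod3 n) hx
  have h2 : InP (QSys.rep (D := sys (𝓞 K)) (mod3 n) (gc (mod3 n) x hx)) :=
    QSys.rep_in (D := sys (𝓞 K)) (mod3 n) _
  exact cls_congr h2.two ((four_dvd_Q3 n).trans h1)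

/-- The classes of the primes. -/
def clG3 (n : ℕ) : ClG qd (GR (mod3 n)) where
  cl q := cq (mod3 n) q
  aG := aG3 n
  ha q := aG3_gc n q.inP

/-- **The mean values.** -/
theorem clG3_H3 (n : ℕ) : (clG3 n).H3 := by
  intro ψ hψ ε hε
  have := finite_quot (Q3_ne n)
  obtain ⟨q, hq⟩ := hψ
  have h := QSys.h3G (D := sys (𝓞 K)) sys_com (mod3 n) (Q3_ne n) ψ ⟨q, hq⟩ ε hε
  rw [ps_eq] at h
  exact h

theorem mem_SG {ι : Type} [DecidableEq ι] [PS ι] {G : Type} [AddCommGroup G]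
    {D : Pool.Agent.Lib.MP_1a91b9_ntH.Dat ι} {C : ClG D G} {g : G} {X : ℕ} {S : Finset ι} :
    S ∈ SG C g X ↔ nm S ≤ X ∧ ∑ q ∈ S, C.cl q = g := by
  classical
  rw [SG, mem_filter, mem_Sx]

theorem mem_SG3 {n : ℕ} {g : GR (mod3 n)} {X : ℕ} {S : Finset Pq} :
    S ∈ SG (clG3 n) g X ↔ nm S ≤ X ∧ ∑ q ∈ S, cq (mod3 n) q = g := mem_SG

theorem nm_eq (S : Finset Pq) : @nm Pq psPg S = nm S := by
  rw [ps_eq]

theorem mem_SR3 {n : ℕ} {g : GR (mod3 n)} {X : ℕ} {S : Finset Pq} :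
    S ∈ SR (mod3 n) g X ↔ nm S ≤ X ∧ ∑ q ∈ S, cq (mod3 n) q = g := by
  rw [← nm_eq]
  exact mem_SR

theorem A_of_class {n : ℕ} {g : GR (mod3 n)} {S : Finset Pq}
    (h : ∑ q ∈ S, cq (mod3 n) q = g) : qd.A S = aG3 n g := by
  rw [← h, map_sum]
  exact sum_congr rfl fun q _ => (aG3_gc n q.inP).symm

end

end Pool.Agent.Lib.MP_1a91b9_ntS.G
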