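import Pool.Agent.Lib.MP_1a91b9_ntS.G.DenI
import Pool.Agent.Lib.MP_1a91b9_ntS.G.Inst3
import Pool.Agent.Lib.MP_1a91b9_ntS.G.Fam3
import Pool.Agent.Lib.MP_1a91b9_ntS.DG.Den4
import Pool.Agent.Lib.MP_1a91b9_ntE.R.OK

/-!
# MP_1a91b9_nt (twists over `Q(sqrt -3)`): the exact density in all the classes modulo powers of two
-/

set_option autoImplicit false

namespace Pool.Agent.Lib.MP_1a91b9_ntS.G

open NumberField Finset Filter Topology Pool.Agent.Lib.MP_1a91b9_ntT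
open Pool.Agent.Lib.MP_1a91b9_ntH (PS nm Sx mem_Sx F4 Pq wO s3 InP qd)
open Pool.Agent.Lib.MP_1a91b9_ntH2 (dlc tw)
open Pool.Agent.Lib.MP_1a91b9_ntR (Pri sys GR cq SR mem_SR SP mem_SP finite_quot finite_GR tendsto_of)
open Pool.Agent.Lib.MP_1a91b9_ntE (qE qE_OK)
open Pool.Agent.Lib.MP_1a91b9_ntS.DG (ClG SG DensG DensGE densG densGE)

noncomputable section

/-- The sets of primes with an invertible matrix. -/
def Good3 (i : I3) (S : Finset Pq) : Prop :=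
  if i.2.2.2 = 0 then ((tw (qd.A S + ⟨i.2.1, i.2.2.1⟩) qd).M S).det ≠ 0
  else (qE.NE (qd.A S + ⟨i.2.1, i.2.2.1⟩) S).det ≠ 0

theorem card_SR3 (n : ℕ) (g : GR (mod3 n)) (X : ℕ) :
    (SR (mod3 n) g X).card = (SG (clG3 n) g X).card := by
  have h : (SR (mod3 n) g X : Finset (Finset Pq)) = SG (clG3 n) g X := by
    ext S
    exact mem_SR3.trans mem_SG3.symm
  exact congrArg Finset.card h

theorem card_SP3 (n : ℕ) (g : GR (mod3 n)) (X : ℕ) (P P' : Finset Pq → Prop) [DecidablePred P']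
    (h : ∀ S, ∑ q ∈ S, cq (mod3 n) q = g → (P S ↔ P' S)) :
    (SP (mod3 n) g X P).card = ((SG (clG3 n) g X).filter P').card := by
  have h1 : (SP (mod3 n) g X P : Finset (Finset Pq)) = (SG (clG3 n) g X).filter P' := by
    ext S
    have e : S ∈ (SG (clG3 n) g X).filter P' ↔ S ∈ SG (clG3 n) g X ∧ P' S := mem_filter
    refine mem_SP.trans (Iff.trans ?_ e.symm)
    constructor
    · rintro ⟨h2, h3⟩
      have h4 := mem_SR3.1 h2
      exact ⟨mem_SG3.2 h4, (h S h4.2).1 h3⟩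
    · rintro ⟨h2, h3⟩
      have h4 := mem_SG3.1 h2
      exact ⟨mem_SR3.2 h4, (h S h4.2).2 h3⟩
  exact congrArg Finset.card h1

theorem z01 (b : ZMod 2) : b = 0 ∨ b = 1 := by
  revert b
  decide

/-- The density in the families, lower bound. -/
theorem low3 (n : ℕ) (Rc : 𝓞 K → Prop) {κ : ℝ} (hκ : κ < Pool.Agent.Lib.MP_1a91b9_ntH.Da.cinf) :
    LowI (mod3 n) mu3 Rc κ Good3 := by
  rintro ⟨j, e, c, b⟩ g _ ε hε
  have hfin := finite_quot (Q3_ne n)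
  have hfin2 := finite_GR (mod3 n) (Q3_ne n)
  let _ : Fintype (GR (mod3 n)) := Fintype.ofFinite _
  rcases z01 b with rfl | rfl
  · obtain ⟨X₀, h⟩ := (densG qE_OK (GR (mod3 n)) (clG3 n) (clG3_H3 n) (aG3 n g + ⟨e, c⟩) g κ).1
      hκ ε hε
    refine ⟨X₀, fun X hX => ?_⟩
    rw [card_SR3, card_SP3 n g X (Good3 (j, e, c, 0))
      (fun S => ((tw (aG3 n g + ⟨e, c⟩) qd).M S).det ≠ 0) (fun S hS => by
        rw [← A_of_class hS]
        unfold Good3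
        rw [if_pos rfl])]
    exact h X hX
  · obtain ⟨X₀, h⟩ := (densGE qE_OK (GR (mod3 n)) (clG3 n) (clG3_H3 n) (aG3 n g + ⟨e, c⟩) g κ).1
      hκ ε hε
    refine ⟨X₀, fun X hX => ?_⟩
    rw [card_SR3, card_SP3 n g X (Good3 (j, e, c, 1))
      (fun S => (qE.NE (aG3 n g + ⟨e, c⟩) S).det ≠ 0) (fun S hS => by
        rw [← A_of_class hS]
        unfold Good3
        rw [if_neg one_ne_zero])]
    exact h X hX

/-- The density in the families, upper bound. -/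
theorem upp3 (n : ℕ) (Rc : 𝓞 K → Prop) {κ : ℝ} (hκ : Pool.Agent.Lib.MP_1a91b9_ntH.Da.cinf < κ) :
    UppI (mod3 n) mu3 Rc κ Good3 := by
  rintro ⟨j, e, c, b⟩ g _ ε hε
  have hfin := finite_quot (Q3_ne n)
  have hfin2 := finite_GR (mod3 n) (Q3_ne n)
  let _ : Fintype (GR (mod3 n)) := Fintype.ofFinite _
  rcases z01 b with rfl | rfl
  · obtain ⟨X₀, h⟩ := (densG qE_OK (GR (mod3 n)) (clG3 n) (clG3_H3 n) (aG3 n g + ⟨e, c⟩) g κ).2
      hκ ε hε
    refine ⟨X₀, fun X hX => ?_⟩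
    rw [card_SR3, card_SP3 n g X (Good3 (j, e, c, 0))
      (fun S => ((tw (aG3 n g + ⟨e, c⟩) qd).M S).det ≠ 0) (fun S hS => by
        rw [← A_of_class hS]
        unfold Good3
        rw [if_pos rfl])]
    exact h X hX
  · obtain ⟨X₀, h⟩ := (densGE qE_OK (GR (mod3 n)) (clG3 n) (clG3_H3 n) (aG3 n g + ⟨e, c⟩) g κ).2
      hκ ε hε
    refine ⟨X₀, fun X hX => ?_⟩
    rw [card_SR3, card_SP3 n g X (Good3 (j, e, c, 1))
      (fun S => (qE.NE (aG3 n g + ⟨e, c⟩) S).det ≠ 0) (fun S hS => by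
        rw [← A_of_class hS]
        unfold Good3
        rw [if_neg one_ne_zero])]
    exact h X hX

theorem famI3 : FamI (R := 𝓞 K) mu3 where
  ne := mu3_ne
  sqf := mu3_sqf
  inj := mu3_inj
  surj := mu3_surj

theorem dvd_Q3 {m : 𝓞 K} {n : ℕ} (hm : m ∣ 2 ^ n) : m ∣ Q3 n :=
  hm.trans ⟨4 * s3, by unfold Q3; ring⟩

theorem cinf_form3 : ∏' i : ℕ, (1 + 1 / (2 : ℝ) ^ (2 * i + 1))⁻¹ =
    Pool.Agent.Lib.MP_1a91b9_ntH.Da.cinf := by
  unfold Pool.Agent.Lib.MP_1a91b9_ntH.Da.cinf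
  simp only [one_div, inv_pow]

/-- **The exact density in all the classes.** If the property `Pr` holds for a set of primes exactly
if the determinant is not zero, then the proportion of the `δ` with `Pr` in the class of `u` modulo
`m`, `m` a divisor of a power of two, tends to the infinite product. -/
theorem lim_G {n : ℕ} {m u : 𝓞 K} (hm : m ∣ 2 ^ n) (hu : ¬ (4 ∣ m ∧ 4 ∣ u)) (Pr : 𝓞 K → Prop)
    (hPr1 : ∀ (j : ℕ) (c : F4) (S : Finset Pq),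
      Pr (wO ^ j * dlc c S) ↔ ((tw c qd).M S).det ≠ 0)
    (hPr2 : ∀ (j : ℕ) (c : F4) (S : Finset Pq),
      Pr (2 * (wO ^ j * dlc c S)) ↔ (qE.NE c S).det ≠ 0) :
    Tendsto (fun X : ℝ =>
      (Nat.card {δ : 𝓞 K // Squarefree δ ∧ m ∣ δ - u ∧ |Algebra.norm ℤ δ| ≤ X ∧ Pr δ} : ℝ) /
        (Nat.card {δ : 𝓞 K // Squarefree δ ∧ m ∣ δ - u ∧ |Algebra.norm ℤ δ| ≤ X} : ℝ)) atTop
      (𝓝 (∏' i : ℕ, (1 + 1 / (2 : ℝ) ^ (2 * i + 1))⁻¹)) := by
  rw [cinf_form3]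
  have hP : ∀ (i : I3) (S : Finset Pq), Pr (mu3 i * Pool.Agent.Lib.MP_1a91b9_ntH.DD S) ↔
      Good3 i S := by
    rintro ⟨j, e, c, b⟩ S
    rw [mu3_dlc]
    unfold Good3
    rcases z01 b with rfl | rfl
    · rw [if_pos rfl, if_pos rfl, one_mul]
      exact hPr1 _ _ _
    · rw [if_neg one_ne_zero, if_neg one_ne_zero]
      exact hPr2 _ _ _
  obtain ⟨i, y, hy, hiy⟩ := mu3_cls hm hu
  have hne : ∃ (i : I3) (y : 𝓞 K), Pri.In y ∧ (fun x => m ∣ x - u) (mu3 i * y) := ⟨i, y, hy, hiy⟩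
  refine tendsto_of (fun a ha => ?_) fun b hb => ?_
  · obtain ⟨κ, h1, h2⟩ := exists_between ha
    exact famI3.low (mod3 n) (Q3_ne n) (Rc := fun x => m ∣ x - u) (cndI_cls (dvd_Q3 hm)) hne h1
      (low3 n _ h2) Pr fun i S _ h => (hP i S).2 h
  · obtain ⟨κ, h1, h2⟩ := exists_between hb
    exact famI3.upp (mod3 n) (Q3_ne n) (Rc := fun x => m ∣ x - u) (cndI_cls (dvd_Q3 hm)) hne h2
      (upp3 n _ h1) Pr fun i S _ h => (hP i S).1 h

end

end Pool.Agent.Lib.MP_1a91b9_ntS.G
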