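import Pool.Agent.Lib.MP_1a91b9_ntS.Q.Main
import Pool.Agent.Lib.MP_1a91b9_ntS.G.Lim3

/-!
# MP_1a91b9_nt: the conjecture of Birch and Swinnerton-Dyer modulo 2 for every quadratic twist over
`Q(sqrt -3)`, with the distribution of the normalised value in all the classes modulo powers of two
-/

set_option autoImplicit false

namespace Pool.Agent.Lib.MP_1a91b9_ntS.G

open NumberField IsDedekindDomain Finset
open Pool.Agent.Lib.MP_1a91b9_ntS (BSDMod qv qv_spec qv_o qv_e)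

noncomputable section

theorem main_q2G : ∃ q : 𝓞 (CyclotomicField 3 ℚ) → ℚ,
    (∀ δ : 𝓞 (CyclotomicField 3 ℚ), Squarefree δ → ∀ W : WeierstrassCurve (CyclotomicField 3 ℚ),
      W = ⟨0, 0, 0, 0, (δ : CyclotomicField 3 ℚ) ^ 3⟩ → BSDMod 2 W (q δ)) ∧
    ∀ (n : ℕ) (m u : 𝓞 (CyclotomicField 3 ℚ)), m ∣ 2 ^ n → ¬ (4 ∣ m ∧ 4 ∣ u) →
      Filter.Tendsto (fun X : ℝ =>
        (Nat.card {δ : 𝓞 (CyclotomicField 3 ℚ) // Squarefree δ ∧ m ∣ δ - u ∧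
          |Algebra.norm ℤ δ| ≤ X ∧ ¬ 2 ∣ (q δ).num} : ℝ) /
        (Nat.card {δ : 𝓞 (CyclotomicField 3 ℚ) // Squarefree δ ∧ m ∣ δ - u ∧
          |Algebra.norm ℤ δ| ≤ X} : ℝ)) Filter.atTop
        (nhds (∏' i : ℕ, (1 + 1 / (2 : ℝ) ^ (2 * i + 1))⁻¹)) := by
  refine ⟨qv, fun δ hs W hW => ?_, fun n m u hm hu => ?_⟩
  · subst hW
    exact qv_spec hs
  · exact lim_G (m := m) (u := u) hm hu (fun δ => ¬ (2 : ℤ) ∣ (qv δ).num) qv_o qv_e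

end

end Pool.Agent.Lib.MP_1a91b9_ntS.G
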